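import Pool.Agent.W533.LP.Stm
import Pool.Agent.W533.LP.Stm3

/-!
# Geometric last passage percolation: a far exit does not beat the point to point time
-/

namespace Pool.Agent.W853.LP

open MeasureTheory ProbabilityTheory Pool.Agent.W533.LP

/-! ### elementary facts -/

lemma dd_facts {q : ℝ} (hq0 : 0 < q) (hq1 : q < 1) :
    0 < Real.sqrt q ∧ Real.sqrt q < 1 ∧ Real.sqrt q * Real.sqrt q = q ∧ 0 < dd q ∧
    4 * dd q ≤ Real.sqrt q - q ∧ 4 * dd q ≤ 1 - Real.sqrt q := by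
  have h1 : 0 < Real.sqrt q := Real.sqrt_pos.mpr hq0
  have h2 : Real.sqrt q * Real.sqrt q = q := Real.mul_self_sqrt hq0.le
  have h3 : Real.sqrt q < 1 := by nlinarith
  have h4 : q < Real.sqrt q := by nlinarith
  refine ⟨h1, h3, h2, ?_, ?_, ?_⟩
  · unfold dd
    have : 0 < min (Real.sqrt q - q) (1 - Real.sqrt q) := lt_min (by linarith) (by linarith)
    linarith
  · unfold dd
    have := min_le_left (Real.sqrt q - q) (1 - Real.sqrt q)
    linarith
  · unfold dd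
    have := min_le_right (Real.sqrt q - q) (1 - Real.sqrt q)
    linarith

lemma mean_sub {a l : ℝ} (ha : a < 1) (hl : l < 1) :
    mean l - mean a = (l - a) / ((1 - l) * (1 - a)) := by
  unfold mean
  have h1 : (1 - l) ≠ 0 := by linarith
  have h2 : (1 - a) ≠ 0 := by linarith
  field_simp
  ring

lemma mean_q {q a : ℝ} (h0 : 0 < a) (ha : q < a) : mean (q / a) = q / (a - q) := by
  unfold mean
  have h1 : a ≠ 0 := by linarith
  have h2 : (a - q) ≠ 0 := by linarith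
  have h3 : (1 - q / a) ≠ 0 := by
    rw [one_sub_div h1]
    exact div_ne_zero h2 h1
  rw [div_eq_div_iff h3 h2]
  field_simp

lemma fin_step {n K c0 x y d E R M Z : ℝ} (hn : 0 ≤ n) (hx : 0 ≤ x)
    (hd : 0 ≤ d) (hK : 0 ≤ K) (hE : 0 < E) (hlK : n * d = c0 * K)
    (hc0 : 2 / E * c0 ≤ 1 / 4) (hKm : 4 * (2 / E) * (x + n * y) ≤ K)
    (hR : R ≤ (d + 2 * y) / E) (hM : M ≤ x / E) (hZ : 1 ≤ Z) :
    d * (M + n * R) - d * K * Z ≤ - (d * K / 2) := by
  have h4 : 0 < 1 / E := by positivity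
  have e1 : 2 / E = 2 * (1 / E) := by ring
  have e2 : (d + 2 * y) / E = 1 / E * (d + 2 * y) := by ring
  have e3 : x / E = 1 / E * x := by ring
  rw [e1] at hc0 hKm
  rw [e2] at hR
  rw [e3] at hM
  generalize 1 / E = e at *
  have h1 : n * R ≤ n * (e * (d + 2 * y)) := mul_le_mul_of_nonneg_left hR hn
  have h2 : M + n * R ≤ e * x + e * (n * d) + 2 * (e * (n * y)) := by
    have : n * (e * (d + 2 * y)) = e * (n * d) + 2 * (e * (n * y)) := by ring
    linarith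
  have h3 : e * (n * d) ≤ K / 8 := by
    rw [hlK]
    have := mul_le_mul_of_nonneg_right hc0 hK
    nlinarith
  have h5 : e * x + 2 * (e * (n * y)) ≤ K / 4 := by
    have h6 : 0 ≤ e * x := mul_nonneg h4.le hx
    have h7 : 4 * (2 * e) * (x + n * y) = 8 * (e * x) + 8 * (e * (n * y)) := by ring
    rw [h7] at hKm
    linarith
  have h6 : M + n * R ≤ K / 2 := by linarith
  have h7 : d * (M + n * R) ≤ d * (K / 2) := mul_le_mul_of_nonneg_left h6 hd
  have h8 : d * K * 1 ≤ d * K * Z := mul_le_mul_of_nonneg_left hZ (mul_nonneg hd hK)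
  linarith

/-- bound for the mean of the difference -/
lemma drift {q t a l D m n K c0 : ℝ} (hq0 : 0 < q) (ht : t * t = q) (ht0 : 0 < t) (ht1 : t < 1)
    (hD : 0 < D) (hD1 : D ≤ 1) (ha1 : D ≤ 1 - a) (ha2 : D ≤ a - q) (hl1 : D ≤ 1 - l)
    (hal : a ≤ l) (hn : 0 ≤ n)
    (hK : 0 ≤ K) (hlK : n * (l - a) = c0 * K) (hc0 : 2 / D ^ 4 * c0 ≤ 1 / 4)
    (hKm : 4 * (2 / D ^ 4) * (|m - n| + n * |a - t|) ≤ K) :
    (m * mean l + n * mean (q / l)) - (m * mean a + n * mean (q / a)) - (K * mean l - K * mean a)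
      ≤ - ((l - a) * K / 2) := by
  have h1 : mean l - mean a = (l - a) / ((1 - l) * (1 - a)) := mean_sub (by linarith) (by linarith)
  have ha0 : 0 < a := by linarith
  have hl2 : D ≤ l - q := by linarith
  have hP : 0 < (1 - l) * (1 - a) := mul_pos (by linarith) (by linarith)
  have hQ : 0 < (l - q) * (a - q) := mul_pos (by linarith) (by linarith)
  have h2 : mean (q / l) - mean (q / a) = - (q * (l - a) / ((l - q) * (a - q))) := by
    rw [mean_q (by linarith) (by linarith), mean_q ha0 (by linarith)]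
    have e1 : (l - q) ≠ 0 := by linarith
    have e2 : (a - q) ≠ 0 := by linarith
    field_simp
    ring
  have hPD : D ^ 2 ≤ (1 - l) * (1 - a) := by nlinarith
  have hQD : D ^ 2 ≤ (l - q) * (a - q) := by nlinarith
  have hP1 : (1 - l) * (1 - a) ≤ 1 := by nlinarith
  have hPQ : D ^ 4 ≤ ((1 - l) * (1 - a)) * ((l - q) * (a - q)) := by
    calc D ^ 4 = D ^ 2 * D ^ 2 := by ring
      _ ≤ _ := mul_le_mul hPD hQD (by positivity) hP.le
  have key : 1 / ((1 - l) * (1 - a)) - q / ((l - q) * (a - q))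
      = (1 - q) * (l * a - q) / (((1 - l) * (1 - a)) * ((l - q) * (a - q))) := by
    rw [div_sub_div _ _ hP.ne' hQ.ne']
    congr 1
    ring
  have hla : |l * a - q| ≤ (l - a) + 2 * |a - t| := by
    have e : l * a - q = (l - a) * a + (a - t) * a + t * (a - t) := by rw [← ht]; ring
    rw [e]
    have b1 : |(l - a) * a| ≤ (l - a) := by
      rw [abs_mul, abs_of_nonneg (by linarith : 0 ≤ l - a), abs_of_pos ha0]
      nlinarith
    have b2 : |(a - t) * a| ≤ |a - t| := by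
      rw [abs_mul, abs_of_pos ha0]
      nlinarith [abs_nonneg (a - t)]
    have b3 : |t * (a - t)| ≤ |a - t| := by
      rw [abs_mul, abs_of_pos ht0]
      nlinarith [abs_nonneg (a - t)]
    calc |(l - a) * a + (a - t) * a + t * (a - t)|
        ≤ |(l - a) * a + (a - t) * a| + |t * (a - t)| := abs_add_le _ _
      _ ≤ |(l - a) * a| + |(a - t) * a| + |t * (a - t)| := by
          linarith [abs_add_le ((l - a) * a) ((a - t) * a)]
      _ ≤ _ := by linarith
  have hD4 : 0 < D ^ 4 := by positivity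
  have hbr : 1 / ((1 - l) * (1 - a)) - q / ((l - q) * (a - q))
      ≤ ((l - a) + 2 * |a - t|) / D ^ 4 := by
    rw [key]
    have hq1 : 0 ≤ 1 - q := by linarith
    have hq2 : 1 - q ≤ 1 := by linarith
    have hnum : (1 - q) * (l * a - q) ≤ (l - a) + 2 * |a - t| := by
      have hs1 := le_abs_self (l * a - q)
      have h0 := abs_nonneg (l * a - q)
      calc (1 - q) * (l * a - q) ≤ (1 - q) * |l * a - q| := mul_le_mul_of_nonneg_left hs1 hq1
        _ ≤ 1 * |l * a - q| := mul_le_mul_of_nonneg_right hq2 h0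
        _ = |l * a - q| := one_mul _
        _ ≤ _ := hla
    have hnn : 0 ≤ (l - a) + 2 * |a - t| := by
      have := abs_nonneg (a - t)
      linarith
    calc (1 - q) * (l * a - q) / (((1 - l) * (1 - a)) * ((l - q) * (a - q)))
        ≤ ((l - a) + 2 * |a - t|) / (((1 - l) * (1 - a)) * ((l - q) * (a - q))) :=
          div_le_div_of_nonneg_right hnum (mul_pos hP hQ).le
      _ ≤ _ := div_le_div_of_nonneg_left hnn hD4 hPQ
  have hmn : (m - n) / ((1 - l) * (1 - a)) ≤ |m - n| / D ^ 4 := by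
    have hD24 : D ^ 4 ≤ (1 - l) * (1 - a) := by
      have : D ^ 4 ≤ D ^ 2 := pow_le_pow_of_le_one hD.le hD1 (by norm_num)
      exact this.trans hPD
    calc (m - n) / ((1 - l) * (1 - a)) ≤ |m - n| / ((1 - l) * (1 - a)) :=
          div_le_div_of_nonneg_right (le_abs_self _) hP.le
      _ ≤ _ := div_le_div_of_nonneg_left (abs_nonneg _) hD4 hD24
  have e5 : (m * mean l + n * mean (q / l)) - (m * mean a + n * mean (q / a))
      - (K * mean l - K * mean a)
      = (l - a) * ((m - n) / ((1 - l) * (1 - a))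
          + n * (1 / ((1 - l) * (1 - a)) - q / ((l - q) * (a - q))))
        - (l - a) * K * (1 / ((1 - l) * (1 - a))) := by
    have e6 : (m * mean l + n * mean (q / l)) - (m * mean a + n * mean (q / a))
      - (K * mean l - K * mean a) = m * (mean l - mean a) + n * (mean (q / l) - mean (q / a))
        - K * (mean l - mean a) := by ring
    rw [e6, h1, h2]
    ring
  rw [e5]
  have h7 : 1 ≤ 1 / ((1 - l) * (1 - a)) := by
    rw [le_div_iff₀ hP]
    rw [one_mul]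
    exact hP1
  have h8 : 0 ≤ (l - a) := by linarith
  exact fin_step hn (abs_nonneg _) h8 hK (by positivity) hlK hc0 hKm hbr hmn h7

/-- Chebyshev for a combination of four variables -/
lemma cheb4 {Ω : Type} [MeasurableSpace Ω] (μ : Measure Ω) [IsProbabilityMeasure μ]
    (X : Fin 4 → Ω → ℝ) (hX : ∀ i, MemLp (X i) 2 μ) (V h : ℝ) (hh : 0 < h)
    (hV : ∀ i, variance (X i) μ ≤ V)
    (hE : (∫ ω, X 0 ω ∂μ) - (∫ ω, X 1 ω ∂μ) - ((∫ ω, X 2 ω ∂μ) - (∫ ω, X 3 ω ∂μ)) ≤ - (2 * h)) :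
    μ.real {ω | - h ≤ X 0 ω - X 1 ω - (X 2 ω - X 3 ω)} ≤ 64 * V / h ^ 2 := by
  have h1 : ∀ i, μ.real {ω | h / 4 ≤ |X i ω - ∫ x, X i x ∂μ|} ≤ V / (h / 4) ^ 2 := by
    intro i
    have h2 := meas_ge_le_variance_div_sq (hX i) (c := h / 4) (by positivity)
    rw [Measure.real]
    have h3 : 0 ≤ V / (h / 4) ^ 2 := div_nonneg (le_trans (variance_nonneg _ _) (hV i)) (by positivity)
    refine ENNReal.toReal_le_of_le_ofReal h3 (h2.trans (ENNReal.ofReal_le_ofReal ?_))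
    exact div_le_div_of_nonneg_right (hV i) (by positivity)
  have hsub : {ω | - h ≤ X 0 ω - X 1 ω - (X 2 ω - X 3 ω)} ⊆
      ⋃ i : Fin 4, {ω | h / 4 ≤ |X i ω - ∫ x, X i x ∂μ|} := by
    intro ω hω
    simp only [Set.mem_ofPred_eq] at hω
    simp only [Set.mem_iUnion, Set.mem_ofPred_eq]
    by_contra hc
    push Not at hc
    have c0 := abs_lt.mp (hc 0)
    have c1 := abs_lt.mp (hc 1)
    have c2 := abs_lt.mp (hc 2)
    have c3 := abs_lt.mp (hc 3)
    linarith [c0.1, c0.2, c1.1, c1.2, c2.1, c2.2, c3.1, c3.2]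
  calc μ.real {ω | - h ≤ X 0 ω - X 1 ω - (X 2 ω - X 3 ω)}
      ≤ μ.real (⋃ i : Fin 4, {ω | h / 4 ≤ |X i ω - ∫ x, X i x ∂μ|}) :=
        measureReal_mono hsub
    _ ≤ ∑ i : Fin 4, μ.real {ω | h / 4 ≤ |X i ω - ∫ x, X i x ∂μ|} :=
        measureReal_iUnion_fintype_le _
    _ ≤ ∑ i : Fin 4, V / (h / 4) ^ 2 := Finset.sum_le_sum (fun i _ => h1 i)
    _ = 64 * V / h ^ 2 := by
        rw [Finset.sum_const, Finset.card_univ, Fintype.card_fin]
        simp only [nsmul_eq_mul]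
        have : h ≠ 0 := hh.ne'
        field_simp
        norm_num
        ring

/-! ### systems -/

lemma sub_fam {Ω : Type} [MeasurableSpace Ω] {μ : Measure Ω} {q a : ℝ} {I J : ℕ → Ω → ℕ}
    {W : ℕ → ℕ → Ω → ℕ} (h : Sys0 μ q a I J W) (K : ℕ) :
    GeoFam μ (fun _ : Fin K => a) (fun i : Fin K => I i) := by
  have hg : Function.Injective (fun i : Fin K => (Sum.inl (i : ℕ) : ℕ ⊕ ℕ ⊕ (ℕ × ℕ) ⊕ Empty)) := by
    intro i j hij
    exact Fin.ext (Sum.inl_injective hij)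
  exact ⟨h.prob, fun i => h.pos (Sum.inl (i : ℕ)), fun i => h.meas (Sum.inl (i : ℕ)),
    h.indep.precomp hg, fun i k => h.law (Sum.inl (i : ℕ)) k⟩

lemma sum_fin_ps {Ω : Type} (I : ℕ → Ω → ℕ) (K : ℕ) (ω : Ω) :
    ∑ i : Fin K, (I i ω : ℝ) = (ps (fun i => I i ω) K : ℝ) := by
  unfold ps
  rw [Finset.sum_range]
  push_cast
  rfl

/-- the event, as a set of configurations -/
def Ev (m n K : ℕ) : Set ((ℕ → ℕ) × (ℕ → ℕ) × (ℕ → ℕ → ℕ) × (Empty → ℕ)) :=
  {z | ∃ k, K ≤ k ∧ k < m ∧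
    T z.2.2.1 m n ≤ ps z.1 (k + 1) + T (sh k 0 z.2.2.1) (m - k) n}

lemma ev_meas (hM : AMeas) (m n K : ℕ) : MeasurableSet (Ev m n K) := by
  have hT : ∀ m n, Measurable (fun W : ℕ → ℕ → ℕ => T W m n) := by
    intro m n
    have h1 : Measurable (fun W : ℕ → ℕ → ℕ => ((zero, zero, W) : (ℕ → ℕ) × (ℕ → ℕ) × (ℕ → ℕ → ℕ))) :=
      measurable_const.prodMk (measurable_const.prodMk measurable_id)
    exact (hM.1 m n).comp h1
  have hW : Measurable (fun z : (ℕ → ℕ) × (ℕ → ℕ) × (ℕ → ℕ → ℕ) × (Empty → ℕ) => z.2.2.1) :=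
    measurable_fst.comp (measurable_snd.comp measurable_snd)
  have hsh : ∀ k, Measurable (fun W : ℕ → ℕ → ℕ => sh k 0 W) := by
    intro k
    refine measurable_pi_lambda _ fun i => measurable_pi_lambda _ fun j => ?_
    exact (measurable_pi_apply (j + 0)).comp (measurable_pi_apply (i + k))
  have hps : ∀ k, Measurable (fun z : (ℕ → ℕ) × (ℕ → ℕ) × (ℕ → ℕ → ℕ) × (Empty → ℕ) =>
      ps z.1 k) := by
    intro k
    unfold ps
    exact Finset.measurable_fun_sum _ fun i _ => (measurable_pi_apply i).comp measurable_fst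
  have e : Ev m n K = ⋃ k : ℕ, {z | (K ≤ k ∧ k < m) ∧
    T z.2.2.1 m n ≤ ps z.1 (k + 1) + T (sh k 0 z.2.2.1) (m - k) n} := by
    ext z
    simp only [Ev, Set.mem_ofPred_eq, Set.mem_iUnion, and_assoc]
  rw [e]
  refine MeasurableSet.iUnion fun k => ?_
  refine (MeasurableSet.const _).inter ?_
  exact measurableSet_le ((hT m n).comp hW)
    ((hps (k + 1)).add (((hT (m - k) n).comp (hsh k)).comp hW))

lemma ind_one {α : Type} (S : Set α) (z : α) :
    S.indicator (fun _ => (1 : ℝ)) z = 1 ↔ z ∈ S := by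
  by_cases h : z ∈ S
  · simp [h]
  · simp [h]

lemma vari_le {b D : ℝ} (hD : 0 < D) (hb : D ≤ 1 - b) : vari b ≤ 1 / D ^ 2 := by
  unfold vari
  have h1 : 0 < (1 - b) ^ 2 := by
    have : 0 < 1 - b := by linarith
    positivity
  have h2 : D ^ 2 ≤ (1 - b) ^ 2 := by nlinarith
  calc b / (1 - b) ^ 2 ≤ 1 / (1 - b) ^ 2 := div_le_div_of_nonneg_right (by linarith) h1.le
    _ ≤ 1 / D ^ 2 := div_le_div_of_nonneg_left zero_le_one (by positivity) h2

lemma num1 {n u CG c1 c0 K : ℝ} (hn : 0 < n) (hu : u = n ^ (2 / 3 : ℝ))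
    (hc : CG * c1 ^ 2 ≤ c0 / 4) :
    CG * (c1 * K / u) ^ 2 * n ^ (1 / 3 : ℝ) ≤ c0 * K ^ 2 / (4 * n) := by
  have e3 : n ^ (1 / 3 : ℝ) * n = u ^ 2 := by
    rw [hu, ← Real.rpow_natCast, ← Real.rpow_mul hn.le]
    nth_rewrite 2 [← Real.rpow_one n]
    rw [← Real.rpow_add hn]
    norm_num
  have hup : 0 < u := by rw [hu]; positivity
  rw [le_div_iff₀ (by positivity)]
  have e4 : CG * (c1 * K / u) ^ 2 * n ^ (1 / 3 : ℝ) * (4 * n)
      = 4 * (CG * c1 ^ 2) * K ^ 2 * (n ^ (1 / 3 : ℝ) * n) / u ^ 2 := by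
    field_simp
  rw [e4, e3]
  have e5 : 4 * (CG * c1 ^ 2) * K ^ 2 * u ^ 2 / u ^ 2 = 4 * (CG * c1 ^ 2) * K ^ 2 := by
    field_simp
  rw [e5]
  have : 0 ≤ K ^ 2 := by positivity
  nlinarith

lemma num2 {n u CG c1 c0 K V0 : ℝ} (hn : 0 < n) (hu : u ^ 3 = n ^ 2) (hup : 0 < u)
    (hc1 : 0 < c1) (hc0 : 0 < c0) (hK : 0 < K) :
    CG / (c1 * K / u) ^ 3 + 64 * (V0 * K) / (c0 * K ^ 2 / (4 * n)) ^ 2 =
      (1024 * V0 / c0 ^ 2 + CG / c1 ^ 3) * (n ^ 2 / K ^ 3) := by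
  have e7 : CG / (c1 * K / u) ^ 3 = CG / c1 ^ 3 * (n ^ 2 / K ^ 3) := by
    rw [← hu]
    field_simp
  rw [e7]
  field_simp
  ring

lemma ev_transfer (hM : AMeas) (hLaw : ALaw) {Ω Ω' : Type} [MeasurableSpace Ω]
    [MeasurableSpace Ω'] (μ : Measure Ω) (μ' : Measure Ω') (q a : ℝ) (I J : ℕ → Ω → ℕ)
    (W : ℕ → ℕ → Ω → ℕ) (I' J' : ℕ → Ω' → ℕ) (W' : ℕ → ℕ → Ω' → ℕ)
    (h : Sys0 μ q a I J W) (h' : Sys0 μ' q a I' J' W') (m n K : ℕ) :
    μ.real {ω | ∃ z, K ≤ z ∧ z < m ∧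
      Tr W m n ω ≤ ps (fun i => I i ω) (z + 1) + Tr (shr z 0 W) (m - z) n ω} =
    μ'.real {ω | ∃ z, K ≤ z ∧ z < m ∧
      Tr W' m n ω ≤ ps (fun i => I' i ω) (z + 1) + Tr (shr z 0 W') (m - z) n ω} := by
  have hF : Measurable ((Ev m n K).indicator (fun _ => (1 : ℝ))) :=
    measurable_const.indicator (ev_meas hM m n K)
  have h1 := hLaw μ μ' q a I J W I' J' W' _ _ _ h h' _ hF
  have h2 := h1.measure_mem_eq (measurableSet_singleton (1 : ℝ))
  have e1 : (fun ω => (Ev m n K).indicator (fun _ => (1 : ℝ))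
      (fun i => I i ω, fun j => J j ω, fun i j => W i j ω, fun _ : Empty => 0)) ⁻¹' {1} =
      {ω | ∃ z, K ≤ z ∧ z < m ∧
      Tr W m n ω ≤ ps (fun i => I i ω) (z + 1) + Tr (shr z 0 W) (m - z) n ω} := by
    ext ω
    exact ind_one _ _
  have e2 : (fun ω => (Ev m n K).indicator (fun _ => (1 : ℝ))
      (fun i => I' i ω, fun j => J' j ω, fun i j => W' i j ω, fun _ : Empty => 0)) ⁻¹' {1} =
      {ω | ∃ z, K ≤ z ∧ z < m ∧
      Tr W' m n ω ≤ ps (fun i => I' i ω) (z + 1) + Tr (shr z 0 W') (m - z) n ω} := by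
    ext ω
    exact ind_one _ _
  rw [← e1, ← e2]
  exact congrArg ENNReal.toReal h2

/-- deterministic part: on the event, `G^lam - G^a - (S^lam_K - S^a_K) ≥ T - G^a` -/
lemma det_part (hExit : DExit) {I I' J' : ℕ → ℕ} {W : ℕ → ℕ → ℕ} (hI : ∀ i, I i ≤ I' i)
    {m n K : ℕ} (hn : 1 ≤ n)
    (h : ∃ z, K ≤ z ∧ z < m ∧ T W m n ≤ ps I (z + 1) + T (sh z 0 W) (m - z) n) :
    (T W m n : ℝ) + ((ps I' K : ℝ) - ps I K) ≤ G I' J' W m n := by
  obtain ⟨z, hz1, hz2, hz3⟩ := h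
  have h1 := (hExit I' J' W m n hn).1 z hz2
  have h2 : ps I' K + ps I (z + 1) ≤ ps I K + ps I' (z + 1) := by
    obtain ⟨r, hr⟩ := Nat.exists_eq_add_of_le (show K ≤ z + 1 by omega)
    have e : ∀ F : ℕ → ℕ, ps F (z + 1) = ps F K + ∑ i ∈ Finset.range r, F (K + i) := by
      intro F
      unfold ps
      rw [hr, Finset.sum_range_add]
    rw [e I, e I']
    have : ∑ i ∈ Finset.range r, I (K + i) ≤ ∑ i ∈ Finset.range r, I' (K + i) :=
      Finset.sum_le_sum fun i _ => hI _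
    omega
  have h1' : (ps I' (z + 1) : ℝ) + T (sh z 0 W) (m - z) n ≤ G I' J' W m n := by exact_mod_cast h1
  have h2' : (ps I' K : ℝ) + ps I (z + 1) ≤ ps I K + ps I' (z + 1) := by exact_mod_cast h2
  have h3' : (T W m n : ℝ) ≤ ps I (z + 1) + T (sh z 0 W) (m - z) n := by exact_mod_cast hz3
  linarith

theorem pFB (hGT : PGT) (hVB : PVB) (hVarId : PVarId) (hCpl : PCouple) (hMom : PMom)
    (hLaw : ALaw) (hMeas : AMeas) (hExit : DExit) : PFB := by
  intro q hq0 hq1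
  obtain ⟨ht0, ht1, htt, hD, hD1, hD2⟩ := dd_facts hq0 hq1
  obtain ⟨CG, hCG, hG⟩ := hGT q hq0 hq1
  obtain ⟨CV, hCV, hV⟩ := hVB q hq0 hq1
  obtain ⟨CM, hCM, hM⟩ := hMom (1 - dd q) (by linarith)
  have hsq : 0 < Real.sqrt q * (1 - Real.sqrt q) := mul_pos ht0 (by linarith)
  generalize hDg : dd q = D at *
  generalize htg : Real.sqrt q = t at *
  have hDle : D ≤ 1 / 4 := by linarith
  have hD4 : 0 < D ^ 4 := by positivity
  have hD4' : D ^ 4 ≤ D := by
    calc D ^ 4 ≤ D ^ 1 := pow_le_pow_of_le_one hD.le (by linarith) (by norm_num)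
      _ = D := pow_one D
  obtain ⟨c0, hc0⟩ : ∃ c0 : ℝ, c0 = D ^ 4 / 8 := ⟨_, rfl⟩
  have hc0p : 0 < c0 := by rw [hc0]; positivity
  have hc0D : 2 * c0 ≤ D := by rw [hc0]; linarith
  have hc0E : 2 / D ^ 4 * c0 ≤ 1 / 4 := by
    rw [hc0]
    apply le_of_eq
    field_simp
    norm_num
  have hc01 : c0 ≤ 1 / 4 := by linarith
  obtain ⟨c1, hc1⟩ : ∃ c1 : ℝ, c1 = c0 / (4 * CG) := ⟨_, rfl⟩
  have hCGp : 0 < CG := by linarith
  have hc1p : 0 < c1 := by rw [hc1]; positivity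
  have hc1a : CG * c1 = c0 / 4 := by
    rw [hc1]; field_simp
  have hc1b : c1 ≤ 1 := by
    have : 1 * c1 ≤ CG * c1 := mul_le_mul_of_nonneg_right hCG hc1p.le
    linarith
  have hc1c : CG * c1 ^ 2 ≤ c0 / 4 := by
    have : CG * c1 * c1 ≤ CG * c1 * 1 := mul_le_mul_of_nonneg_left hc1b (by positivity)
    nlinarith
  obtain ⟨V0, hV0⟩ : ∃ V0 : ℝ, V0 = 2 * CV + 1 / D ^ 2 := ⟨_, rfl⟩
  have hV0p : 0 < V0 := by rw [hV0]; positivity
  obtain ⟨C, hC⟩ : ∃ C : ℝ, C = 1 + 8 / D ^ 4 + 1 / c1 + 1024 * V0 / c0 ^ 2 + CG / c1 ^ 3 :=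
    ⟨_, rfl⟩
  have p1 : 0 < 8 / D ^ 4 := by positivity
  have p2 : 0 < 1 / c1 := by positivity
  have p3 : 0 < 1024 * V0 / c0 ^ 2 := by positivity
  have p4 : 0 < CG / c1 ^ 3 := by positivity
  have hC1 : 1 ≤ C := by rw [hC]; linarith
  have hCa : 4 * (2 / D ^ 4) ≤ C := by
    have : 4 * (2 / D ^ 4) = 8 / D ^ 4 := by ring
    rw [hC, this]; linarith
  have hCb : 1 / c1 ≤ C := by rw [hC]; linarith
  have hCc : 1024 * V0 / c0 ^ 2 + CG / c1 ^ 3 ≤ C := by rw [hC]; linarith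
  have hCp : 0 < C := by linarith
  refine ⟨C, hC1, ?_⟩
  intro Ω _ μ a I0 J0 W0 m n K hat hn hnm hmn hK hs0
  have hnR : (1 : ℝ) ≤ n := by exact_mod_cast hn
  have hn0 : (0 : ℝ) < n := by linarith
  obtain ⟨u, hu⟩ : ∃ u : ℝ, u = (n : ℝ) ^ (2 / 3 : ℝ) := ⟨_, rfl⟩
  have hu1 : 1 ≤ u := by rw [hu]; exact Real.one_le_rpow hnR (by norm_num)
  rw [← hu] at hK
  have hx0 : 0 ≤ |(m : ℝ) - n| := abs_nonneg _
  have hy0 : 0 ≤ (n : ℝ) * |a - t| := by positivity
  have hKsum : u + |(m : ℝ) - n| + n * |a - t| ≤ K := by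
    have : 1 * (u + |(m : ℝ) - n| + n * |a - t|) ≤ C * (u + |(m : ℝ) - n| + n * |a - t|) :=
      mul_le_mul_of_nonneg_right hC1 (by linarith)
    linarith
  have hKR : (1 : ℝ) ≤ K := by linarith
  have hK0 : (0 : ℝ) < K := by linarith
  have hc1K : u + |(m : ℝ) - n| + n * |a - t| ≤ c1 * K := by
    have h1 : 1 / c1 * (u + |(m : ℝ) - n| + n * |a - t|) ≤ K :=
      (mul_le_mul_of_nonneg_right hCb (by linarith)).trans hK
    have h2 := mul_le_mul_of_nonneg_left h1 hc1p.le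
    rw [← mul_assoc, mul_one_div_cancel hc1p.ne', one_mul] at h2
    exact h2
  have hKd : 4 * (2 / D ^ 4) * (|(m : ℝ) - n| + n * |a - t|) ≤ K := by
    have h1 : 4 * (2 / D ^ 4) * (|(m : ℝ) - n| + n * |a - t|) ≤
        C * (u + |(m : ℝ) - n| + n * |a - t|) := by
      apply mul_le_mul hCa (by linarith) (by linarith) hCp.le
    linarith
  by_cases hmK : m ≤ K
  · -- the event is empty
    have he : {ω | ∃ z, K ≤ z ∧ z < m ∧
        Tr W0 m n ω ≤ ps (fun i => I0 i ω) (z + 1) + Tr (shr z 0 W0) (m - z) n ω} = ∅ := by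
      ext ω
      simp only [Set.mem_ofPred_eq, Set.mem_empty_iff_false, iff_false, not_exists]
      intro z hz
      omega
    rw [he, measureReal_empty]
    positivity
  push Not at hmK
  have hKm : (K : ℝ) ≤ m := by exact_mod_cast hmK.le
  have hmnR : (m : ℝ) ≤ 2 * n := by exact_mod_cast hmn
  have hK2n : (K : ℝ) ≤ 2 * n := by linarith
  obtain ⟨l, hl⟩ : ∃ l : ℝ, l = a + c0 * K / n := ⟨_, rfl⟩
  have hla : l - a = c0 * K / n := by rw [hl]; ring
  have hla0 : 0 < l - a := by rw [hla]; positivity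
  have hnla : n * (l - a) = c0 * K := by rw [hla]; field_simp
  have hlaD : l - a ≤ D := by
    rw [hla, div_le_iff₀ hn0]
    nlinarith
  obtain ⟨ha1, ha2⟩ := abs_le.mp hat
  have hqa : q < a := by linarith
  have hl1 : l < 1 := by linarith
  obtain ⟨Ω', _, μ', I, J, I', J', W, hs, hs', hle⟩ := hCpl q a l hq0 hqa (by linarith) hl1
  rw [ev_transfer hMeas hLaw μ μ' q a I0 J0 W0 I J W hs0 hs m n K]
  have hprob : IsProbabilityMeasure μ' := hs.prob
  -- the four variables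
  have hGa := hVarId μ' q a I J W hq0 hqa (by linarith) hs m n
  have hGl := hVarId μ' q l I' J' W hq0 (by linarith) hl1 hs' m n
  have hSa := hM μ' a K (fun i : Fin K => I i) (by linarith) (sub_fam hs K)
  have hSl := hM μ' l K (fun i : Fin K => I' i) (by linarith) (sub_fam hs' K)
  have hVa : variance (fun ω => (Gr I J W m n ω : ℝ)) μ' ≤ V0 * K := by
    have h1 := hV μ' a I J W (by linarith) hs m n hn hnm hmn
    rw [← hu] at h1
    have h2 : CV * (u + |(m : ℝ) - n| + n * |a - t|) ≤ CV * K :=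
      mul_le_mul_of_nonneg_left hKsum (by linarith)
    have h3 : CV * K ≤ V0 * K := by
      apply mul_le_mul_of_nonneg_right _ hK0.le
      rw [hV0]
      have : 0 < 1 / D ^ 2 := by positivity
      linarith
    linarith
  have hVl : variance (fun ω => (Gr I' J' W m n ω : ℝ)) μ' ≤ V0 * K := by
    have hlt : |l - t| ≤ |a - t| + (l - a) := by
      have : l - t = (a - t) + (l - a) := by ring
      rw [this]
      refine (abs_add_le _ _).trans ?_
      rw [abs_of_pos hla0]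
    have h1 := hV μ' l I' J' W (by linarith) hs' m n hn hnm hmn
    rw [← hu] at h1
    have h4 : n * |l - t| ≤ n * |a - t| + c0 * K := by
      have := mul_le_mul_of_nonneg_left hlt hn0.le
      rw [mul_add, hnla] at this
      exact this
    have h2 : CV * (u + |(m : ℝ) - n| + n * |l - t|) ≤ CV * (2 * K) := by
      apply mul_le_mul_of_nonneg_left _ (by linarith only [hCV])
      have h5 := mul_le_mul_of_nonneg_right hc01 hK0.le
      linarith only [h4, h5, hKsum, hK0]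
    have h3 : CV * (2 * K) ≤ V0 * K := by
      have : CV * (2 * (K : ℝ)) = 2 * CV * K := by ring
      rw [this]
      apply mul_le_mul_of_nonneg_right _ hK0.le
      rw [hV0]
      have : 0 < 1 / D ^ 2 := by positivity
      linarith
    linarith
  have hvar : ∀ b : ℝ, D ≤ 1 - b → (K : ℝ) * vari b ≤ V0 * K := by
    intro b hb
    have h1 : vari b ≤ 1 / D ^ 2 := vari_le hD hb
    have h2 : vari b ≤ V0 := by rw [hV0]; linarith only [h1, hCV]
    have h3 := mul_le_mul_of_nonneg_left h2 hK0.le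
    linarith only [h3]
  obtain ⟨h, hh⟩ : ∃ h : ℝ, h = c0 * K ^ 2 / (4 * n) := ⟨_, rfl⟩
  have hhp : 0 < h := by rw [hh]; positivity
  have hch := cheb4 μ' ![fun ω => (Gr I' J' W m n ω : ℝ), fun ω => (Gr I J W m n ω : ℝ),
      fun ω => ∑ i : Fin K, (I' i ω : ℝ), fun ω => ∑ i : Fin K, (I i ω : ℝ)] (by
      intro i
      fin_cases i
      · exact hGl.1.mono_exponent (by norm_num)
      · exact hGa.1.mono_exponent (by norm_num)
      · exact hSl.1.mono_exponent (by norm_num)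
      · exact hSa.1.mono_exponent (by norm_num)) (V0 * K) h hhp (by
      intro i
      fin_cases i
      · exact hVl
      · exact hVa
      · exact (le_of_eq hSl.2.2.1).trans (hvar l (by linarith only [hlaD, ha2, hD2, hat, hDg, ht1]))
      · exact (le_of_eq hSa.2.2.1).trans (hvar a (by linarith only [ha2, hD2, hD]))) (by
      have e1 : (∫ ω, (Gr I' J' W m n ω : ℝ) ∂μ') - (∫ ω, (Gr I J W m n ω : ℝ) ∂μ') -
          ((∫ ω, ∑ i : Fin K, (I' i ω : ℝ) ∂μ') - (∫ ω, ∑ i : Fin K, (I i ω : ℝ) ∂μ'))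
          ≤ - (2 * h) := by
        rw [hGl.2.1, hGa.2.1, hSl.2.1, hSa.2.1]
        have h1 := drift (q := q) (t := t) (a := a) (l := l) (D := D) (m := m) (n := n) (K := K)
          (c0 := c0) hq0 htt ht0 ht1 hD (by linarith) (by linarith) (by linarith) (by linarith)
          (by linarith) hn0.le hK0.le hnla hc0E hKd
        refine h1.trans (le_of_eq ?_)
        rw [hla, hh]
        field_simp
        ring
      exact e1)
  have hsub : {ω | ∃ z, K ≤ z ∧ z < m ∧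
      Tr W m n ω ≤ ps (fun i => I i ω) (z + 1) + Tr (shr z 0 W) (m - z) n ω} ⊆
      {ω | (Tr W m n ω : ℝ) + CG * (c1 * K / u) ^ 2 * (n : ℝ) ^ (1 / 3 : ℝ) ≤ Gr I J W m n ω} ∪
      {ω | - h ≤ ((Gr I' J' W m n ω : ℝ)) - (Gr I J W m n ω : ℝ) -
        ((∑ i : Fin K, (I' i ω : ℝ)) - (∑ i : Fin K, (I i ω : ℝ)))} := by
    intro ω hω
    have h1 := det_part hExit (I := fun i => I i ω) (I' := fun i => I' i ω)
      (J' := fun i => J' i ω) (W := fun i j => W i j ω) (fun i => (hle i ω).1) hn hω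
    by_cases h2 : (Tr W m n ω : ℝ) + CG * (c1 * K / u) ^ 2 * (n : ℝ) ^ (1 / 3 : ℝ)
      ≤ Gr I J W m n ω
    · exact Or.inl h2
    · right
      simp only [Set.mem_ofPred_eq]
      push Not at h2
      rw [sum_fin_ps, sum_fin_ps]
      have h3 : CG * (c1 * K / u) ^ 2 * (n : ℝ) ^ (1 / 3 : ℝ) ≤ h := by
        rw [hh]
        exact num1 hn0 hu hc1c
      have h4 : (Gr I J W m n ω : ℝ) ≤ Tr W m n ω + h := by linarith only [h2, h3]
      have h5 : (Tr W m n ω : ℝ) + ((ps (fun i => I' i ω) K : ℝ) - ps (fun i => I i ω) K)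
        ≤ Gr I' J' W m n ω := h1
      linarith only [h4, h5]
  have hup : 0 < u := by linarith
  have hu3 : u ^ 3 = (n : ℝ) ^ 2 := by
    rw [hu, ← Real.rpow_natCast, ← Real.rpow_mul hn0.le]
    norm_num
  have hgt : μ'.real {ω | (Tr W m n ω : ℝ) + CG * (c1 * K / u) ^ 2 * (n : ℝ) ^ (1 / 3 : ℝ)
      ≤ Gr I J W m n ω} ≤ CG / (c1 * K / u) ^ 3 := by
    have e6 : (n : ℝ) ^ (1 / 3 : ℝ) * u = n := by
      rw [hu, ← Real.rpow_add hn0]
      norm_num
    have hv0 : 0 < (n : ℝ) ^ (1 / 3 : ℝ) := Real.rpow_pos_of_pos hn0 _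
    refine hG μ' a (c1 * K / u) I J W m n ?_ ?_ hn hnm hmn ?_ ?_ hs
    · rw [le_div_iff₀ hup]
      linarith only [hc1K, hx0, hy0]
    · rw [← mul_div_assoc, div_le_iff₀ hup, e6]
      have : CG * (c1 * (K : ℝ)) = c0 / 4 * K := by rw [← mul_assoc, hc1a]
      rw [this]
      have h6 := mul_le_mul_of_nonneg_right hc01 hK0.le
      linarith only [h6, hK2n, hK0, hn0]
    · rw [le_div_iff₀ hup, mul_assoc, e6]
      linarith only [hc1K, hx0, hup, hy0, mul_comm (n : ℝ) |a - t|]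
    · rw [← hu, div_mul_cancel₀ _ hup.ne']
      linarith only [hc1K, hx0, hup, hy0]
  calc μ'.real {ω | ∃ z, K ≤ z ∧ z < m ∧
      Tr W m n ω ≤ ps (fun i => I i ω) (z + 1) + Tr (shr z 0 W) (m - z) n ω}
      ≤ μ'.real ({ω | (Tr W m n ω : ℝ) + CG * (c1 * K / u) ^ 2 * (n : ℝ) ^ (1 / 3 : ℝ)
        ≤ Gr I J W m n ω} ∪
      {ω | - h ≤ ((Gr I' J' W m n ω : ℝ)) - (Gr I J W m n ω : ℝ) -
        ((∑ i : Fin K, (I' i ω : ℝ)) - (∑ i : Fin K, (I i ω : ℝ)))}) := measureReal_mono hsub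
    _ ≤ _ := measureReal_union_le _ _
    _ ≤ CG / (c1 * K / u) ^ 3 + 64 * (V0 * K) / h ^ 2 := add_le_add hgt hch
    _ = (1024 * V0 / c0 ^ 2 + CG / c1 ^ 3) * ((n : ℝ) ^ 2 / (K : ℝ) ^ 3) := by
        rw [hh]
        exact num2 hn0 hu3 hup hc1p hc0p hK0
    _ ≤ C * ((n : ℝ) ^ 2 / (K : ℝ) ^ 3) := mul_le_mul_of_nonneg_right hCc (by positivity)
    _ = C * (n : ℝ) ^ 2 / (K : ℝ) ^ 3 := by ring

end Pool.Agent.W853.LP
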